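import Pool.Agent.Run7.h700.KC.Stm

/-!
# Project KC: the final assembly
-/

set_option autoImplicit false

namespace Pool.Agent.Run7.h700.KC

open Metric Set MeasureTheory Filter Topology
open scoped ENNReal Real

/-- the tangent line inequality -/
lemma pow_tangent {F G p : ℝ} (hF : 0 < F) (hG : 0 ≤ G) (hp : 1 ≤ p) :
    F ^ p ≤ G ^ p + p * F ^ p * ((F - G) / F) := by
  have h1 : -1 ≤ (G - F) / F := by
    rw [le_div_iff₀ hF]
    linarith
  have h2 := one_add_mul_self_le_rpow_one_add h1 hp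
  have e1 : 1 + (G - F) / F = G / F := by field_simp; ring
  rw [e1, Real.div_rpow hG hF.le] at h2
  have hFp : 0 < F ^ p := Real.rpow_pos_of_pos hF p
  have h3 := mul_le_mul_of_nonneg_right h2 hFp.le
  rw [div_mul_cancel₀ _ hFp.ne'] at h3
  have e2 : (F - G) / F = -((G - F) / F) := by ring
  rw [e2]
  linarith

/-- the maximum principle on the disk -/
lemma max_disk {f : ℂ → ℂ} {ρ M : ℝ} (hρ : 0 < ρ) (hρ1 : ρ < 1) (hf : DifferentiableOn ℂ f (ball 0 1))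
    (h : ∀ z : ℂ, ‖z‖ = ρ → ‖f z‖ ≤ M) : ∀ z : ℂ, ‖z‖ ≤ ρ → ‖f z‖ ≤ M := by
  intro z hz
  have hcl : closure (ball (0 : ℂ) ρ) = closedBall 0 ρ := closure_ball 0 hρ.ne'
  have hd : DiffContOnCl ℂ f (ball 0 ρ) := by
    refine DifferentiableOn.diffContOnCl ?_
    rw [hcl]
    exact hf.mono (closedBall_subset_ball hρ1)
  refine Complex.norm_le_of_forall_mem_frontier_norm_le isBounded_ball hd (fun w hw => ?_)
    (z := z) (by rw [hcl, mem_closedBall_zero_iff]; exact hz)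
  rw [frontier_ball (0 : ℂ) hρ.ne', mem_sphere_zero_iff_norm] at hw
  exact h w hw

/-- Splitting of the integrals. -/
lemma split_le {f g : ℂ → ℂ} {r d p κ x : ℝ} {zs : ℂ} (hd : 0 < d) (hp : 1 ≤ p) (hmv : S_MV)
    (hf : DifferentiableOn ℂ f (ball 0 1)) (hκ : 0 ≤ κ) (hx : 0 ≤ x) (hr : 0 < r) (hr1 : r < 1)
    (hW : ball zs d ⊆ {z | r < ‖z‖ ∧ ‖z‖ < 1})
    (hfg : ∀ z : ℂ, r < ‖z‖ → ‖z‖ < 1 → ‖f z‖ ≤ ‖g z‖)
    (hW2 : ∀ z ∈ ball zs d, (1 + κ) * ‖f z‖ ^ p ≤ ‖g z‖ ^ p)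
    (hB : ∀ z : ℂ, ‖z‖ ≤ r → ‖f z‖ ^ p ≤ ‖g z‖ ^ p + x)
    (hxk : x ≤ κ * (d ^ 2 * ‖f zs‖ ^ p)) :
    ∫⁻ z in ball (0:ℂ) 1, ‖f z‖ₑ ^ p ≤ ∫⁻ z in ball (0:ℂ) 1, ‖g z‖ₑ ^ p := by
  have hp0 : 0 ≤ p := by linarith
  have en : ∀ w : ℂ, ‖w‖ₑ ^ p = ENNReal.ofReal (‖w‖ ^ p) := by
    intro w
    rw [← ofReal_norm, ENNReal.ofReal_rpow_of_nonneg (norm_nonneg _) hp0]
  have hBm : MeasurableSet (closedBall (0 : ℂ) r) := isClosed_closedBall.measurableSet
  have hsub : ball (0 : ℂ) 1 ∩ closedBall 0 r = closedBall 0 r :=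
    inter_eq_right.2 (closedBall_subset_ball hr1)
  have hA : ball (0 : ℂ) 1 \ closedBall 0 r = {z | r < ‖z‖ ∧ ‖z‖ < 1} := by
    ext z
    simp only [Set.mem_sdiff, mem_ball_zero_iff, mem_closedBall_zero_iff, not_le, mem_ofPred_eq]
    tauto
  rw [← lintegral_inter_add_sdiff (fun z => ‖f z‖ₑ ^ p) (ball (0:ℂ) 1) hBm,
    ← lintegral_inter_add_sdiff (fun z => ‖g z‖ₑ ^ p) (ball (0:ℂ) 1) hBm, hsub, hA]
  set A : Set ℂ := {z | r < ‖z‖ ∧ ‖z‖ < 1} with hAdef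
  have hAm : MeasurableSet A := by
    rw [← hA]
    exact isOpen_ball.measurableSet.diff hBm
  have h1 : ∫⁻ z in closedBall (0:ℂ) r, ‖f z‖ₑ ^ p ≤
      (∫⁻ z in closedBall (0:ℂ) r, ‖g z‖ₑ ^ p) + ENNReal.ofReal x * ENNReal.ofReal π := by
    calc ∫⁻ z in closedBall (0:ℂ) r, ‖f z‖ₑ ^ p
        ≤ ∫⁻ z in closedBall (0:ℂ) r, (‖g z‖ₑ ^ p + ENNReal.ofReal x) := by
          refine setLIntegral_mono' hBm fun z hz => ?_
          rw [en, en, ← ENNReal.ofReal_add (by positivity) hx]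
          exact ENNReal.ofReal_le_ofReal (hB z (mem_closedBall_zero_iff.1 hz))
      _ = (∫⁻ z in closedBall (0:ℂ) r, ‖g z‖ₑ ^ p) + ENNReal.ofReal x * volume (closedBall (0:ℂ) r) := by
          rw [lintegral_add_right _ measurable_const, setLIntegral_const]
      _ ≤ _ := by
          gcongr
          rw [Complex.volume_closedBall]
          have e1 : (NNReal.pi : ℝ≥0∞) = ENNReal.ofReal π := by
            rw [← NNReal.coe_real_pi, ENNReal.ofReal_coe_nnreal]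
          rw [e1]
          calc ENNReal.ofReal r ^ 2 * ENNReal.ofReal π ≤ 1 * ENNReal.ofReal π := by
                gcongr
                refine pow_le_one₀ zero_le ?_
                rw [← ENNReal.ofReal_one]
                exact ENNReal.ofReal_le_ofReal hr1.le
            _ = _ := one_mul _
  have hWm : MeasurableSet (ball zs d) := isOpen_ball.measurableSet
  have h2 : (∫⁻ z in A, ‖f z‖ₑ ^ p) + ENNReal.ofReal κ * (ENNReal.ofReal (π * d ^ 2) * ‖f zs‖ₑ ^ p) ≤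
      ∫⁻ z in A, ‖g z‖ₑ ^ p := by
    have hmv' := hmv f zs d p hd hp (hf.mono fun z hz => mem_ball_zero_iff.2 (hW hz).2)
    calc (∫⁻ z in A, ‖f z‖ₑ ^ p) + ENNReal.ofReal κ * (ENNReal.ofReal (π * d ^ 2) * ‖f zs‖ₑ ^ p)
        ≤ (∫⁻ z in A, ‖f z‖ₑ ^ p) + ENNReal.ofReal κ * ∫⁻ z in ball zs d, ‖f z‖ₑ ^ p := by
          gcongr
      _ = (∫⁻ z in A, ‖f z‖ₑ ^ p) +
          ∫⁻ z in A, (ball zs d).indicator (fun z => ENNReal.ofReal κ * ‖f z‖ₑ ^ p) z := by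
          rw [lintegral_indicator hWm, Measure.restrict_restrict hWm, inter_eq_left.2 hW,
            lintegral_const_mul' _ _ ENNReal.ofReal_ne_top]
      _ ≤ ∫⁻ z in A, (‖f z‖ₑ ^ p +
          (ball zs d).indicator (fun z => ENNReal.ofReal κ * ‖f z‖ₑ ^ p) z) := le_lintegral_add _ _
      _ ≤ ∫⁻ z in A, ‖g z‖ₑ ^ p := by
          refine setLIntegral_mono' hAm fun z hz => ?_
          by_cases hzW : z ∈ ball zs d
          · rw [indicator_of_mem hzW, en, en, ← ENNReal.ofReal_mul hκ,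
              ← ENNReal.ofReal_add (by positivity) (by positivity)]
            refine ENNReal.ofReal_le_ofReal ?_
            have := hW2 z hzW
            linarith
          · rw [indicator_of_notMem hzW, add_zero, en, en]
            exact ENNReal.ofReal_le_ofReal
              (Real.rpow_le_rpow (norm_nonneg _) (hfg z hz.1 hz.2) hp0)
  have h3 : ENNReal.ofReal x * ENNReal.ofReal π ≤
      ENNReal.ofReal κ * (ENNReal.ofReal (π * d ^ 2) * ‖f zs‖ₑ ^ p) := by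
    rw [en, ← ENNReal.ofReal_mul hx, ← ENNReal.ofReal_mul (by positivity), ← ENNReal.ofReal_mul hκ]
    refine ENNReal.ofReal_le_ofReal ?_
    have := mul_le_mul_of_nonneg_right hxk Real.pi_pos.le
    linarith
  calc (∫⁻ z in closedBall (0:ℂ) r, ‖f z‖ₑ ^ p) + ∫⁻ z in A, ‖f z‖ₑ ^ p
      ≤ ((∫⁻ z in closedBall (0:ℂ) r, ‖g z‖ₑ ^ p) + ENNReal.ofReal x * ENNReal.ofReal π) +
        ∫⁻ z in A, ‖f z‖ₑ ^ p := by gcongr
    _ ≤ ((∫⁻ z in closedBall (0:ℂ) r, ‖g z‖ₑ ^ p) +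
        ENNReal.ofReal κ * (ENNReal.ofReal (π * d ^ 2) * ‖f zs‖ₑ ^ p)) + ∫⁻ z in A, ‖f z‖ₑ ^ p := by
        gcongr
    _ = (∫⁻ z in closedBall (0:ℂ) r, ‖g z‖ₑ ^ p) + ((∫⁻ z in A, ‖f z‖ₑ ^ p) +
        ENNReal.ofReal κ * (ENNReal.ofReal (π * d ^ 2) * ‖f zs‖ₑ ^ p)) := by
        rw [add_assoc]
        congr 1
        exact add_comm _ _
    _ ≤ _ := by gcongr

/-- The theorem from the pieces. -/
theorem main_of (hsp : S_SP) (hch : S_CH) (hann : S_ANN) (hdisc : S_DISC) (hquo : S_QUO) (hnz : S_NZ)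
    (hmv : S_MV) : S_MAIN := by
  intro r hr hr1
  obtain ⟨s, hs⟩ : ∃ s : ℝ, s = r + (1 - r) / 4 := ⟨_, rfl⟩
  obtain ⟨m, hm⟩ : ∃ m : ℝ, m = r + (1 - r) / 2 := ⟨_, rfl⟩
  obtain ⟨t, ht⟩ : ∃ t : ℝ, t = r + 3 * (1 - r) / 4 := ⟨_, rfl⟩
  obtain ⟨d, hd⟩ : ∃ d : ℝ, d = (1 - r) / 4 := ⟨_, rfl⟩
  have hd0 : 0 < d := by rw [hd]; linarith
  have hrs : r < s := by linarith
  have hsm : s < m := by linarith
  have hmt : m < t := by linarith
  have ht1 : t < 1 := by linarith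
  have hs0 : 0 < s := hr.trans hrs
  have hm0 : 0 < m := hs0.trans hsm
  obtain ⟨c, C, hc, hC, hcC⟩ := hann hsp hch r s t hr hrs (hsm.trans hmt).le ht1
  obtain ⟨c2, hc2, hc21, hdc⟩ := hdisc hsp hch s m hs0 hsm
  obtain ⟨q, hq⟩ : ∃ q : ℝ, q = 1 - c2 / 2 := ⟨_, rfl⟩
  have hq0 : 0 < q := by linarith
  have hq1 : q < 1 := by linarith
  obtain ⟨K, hK⟩ : ∃ K : ℝ, K = C + 1 := ⟨_, rfl⟩
  have hK0 : 0 < K := by linarith
  obtain ⟨δ₀, hδ₀⟩ : ∃ δ₀ : ℝ, δ₀ = 1 / (4 * K) := ⟨_, rfl⟩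
  have hδ₀0 : 0 < δ₀ := by rw [hδ₀]; positivity
  have hKδ : K * δ₀ = 1 / 4 := by rw [hδ₀]; field_simp
  -- the choice of `P`
  obtain ⟨P₁, hP₁⟩ : ∃ P₁ : ℝ, ∀ p : ℝ, P₁ ≤ p → 2 * K * q ^ p ≤ c * d ^ 2 := by
    have h1 : Tendsto (fun p : ℝ => 2 * K * q ^ p) atTop (𝓝 (2 * K * 0)) :=
      (tendsto_rpow_atTop_of_base_lt_one q (by linarith) hq1).const_mul _
    rw [mul_zero] at h1
    obtain ⟨P₁, h2⟩ := (h1.eventually (gt_mem_nhds (show (0 : ℝ) < c * d ^ 2 by positivity))).exists_forall_of_atTop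
    exact ⟨P₁, fun p hp => (h2 p hp).le⟩
  refine ⟨max 1 (max P₁ (1 / (c * δ₀ * d ^ 2))), fun p hp f g hf hg hfg => ?_⟩
  have hp1 : 1 ≤ p := (le_max_left _ _).trans hp
  have hpP : P₁ ≤ p := ((le_max_left _ _).trans (le_max_right _ _)).trans hp
  have hpL : 1 / (c * δ₀ * d ^ 2) ≤ p := ((le_max_right _ _).trans (le_max_right _ _)).trans hp
  have hp0 : 0 < p := by linarith
  -- the maximum on the circle of radius `m`
  obtain ⟨zs, hzs, hmax⟩ := (isCompact_sphere (0 : ℂ) m).exists_isMaxOn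
    (NormedSpace.sphere_nonempty.2 hm0.le)
    (continuous_norm.comp_continuousOn (hf.continuousOn.mono
      ((sphere_subset_closedBall).trans (closedBall_subset_ball (hmt.trans ht1)))))
  rw [mem_sphere_zero_iff_norm] at hzs
  have hM : ∀ z : ℂ, ‖z‖ ≤ m → ‖f z‖ ≤ ‖f zs‖ := max_disk hm0 (hmt.trans ht1) hf fun z hz =>
    hmax (mem_sphere_zero_iff_norm.2 hz)
  have hW : ball zs d ⊆ {z | r < ‖z‖ ∧ ‖z‖ < 1} := by
    intro z hz
    rw [mem_ball, dist_eq_norm] at hz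
    have h1 := norm_sub_norm_le z zs
    have h2 := norm_sub_norm_le zs z
    rw [norm_sub_rev] at h2
    refine ⟨?_, ?_⟩ <;> linarith
  have hWst : ∀ z ∈ ball zs d, s ≤ ‖z‖ ∧ ‖z‖ ≤ t := by
    intro z hz
    rw [mem_ball, dist_eq_norm] at hz
    have h1 := norm_sub_norm_le z zs
    have h2 := norm_sub_norm_le zs z
    rw [norm_sub_rev] at h2
    refine ⟨?_, ?_⟩ <;> linarith
  rcases eq_or_lt_of_le (norm_nonneg (f zs)) with hM0 | hM0
  · -- `f` vanishes on a disk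
    refine split_le hd0 hp1 hmv hf (κ := 0) (x := 0) le_rfl le_rfl hr hr1 hW hfg (fun z hz => ?_)
      (fun z hz => ?_) (by simp)
    · rw [add_zero, one_mul]
      exact Real.rpow_le_rpow (norm_nonneg _) (hfg z (hW hz).1 (hW hz).2) hp0.le
    · have h1 : ‖f z‖ = 0 := le_antisymm ((hM z (by linarith)).trans hM0.symm.le) (norm_nonneg _)
      rw [h1, Real.zero_rpow hp0.ne', add_zero]
      positivity
  have hgz : ∃ z ∈ ball (0 : ℂ) 1, g z ≠ 0 := by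
    refine ⟨zs, by rw [mem_ball_zero_iff]; linarith, fun h0 => ?_⟩
    have := hfg zs (by linarith) (by linarith)
    rw [h0, norm_zero] at this
    linarith
  obtain ⟨ω, hω, hω2⟩ := hquo r f g hr hr1 hf hg hfg hgz
  by_cases hnz0 : ∀ z : ℂ, ‖z‖ ≤ r → g z ≠ 0
  · -- no zeros
    have h1 := hnz r f g hr hr1 hf hg hfg hnz0
    refine setLIntegral_mono' isOpen_ball.measurableSet fun z hz => ?_
    refine ENNReal.rpow_le_rpow ?_ hp0.le
    rw [← ofReal_norm, ← ofReal_norm]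
    exact ENNReal.ofReal_le_ofReal (h1 z (mem_ball_zero_iff.1 hz))
  push Not at hnz0
  obtain ⟨b, hb, hgb⟩ := hnz0
  obtain ⟨δ, hδ⟩ : ∃ δ : ℝ, δ = 1 - ‖ω (s : ℂ)‖ := ⟨_, rfl⟩
  have hsn : ‖(s : ℂ)‖ = s := by rw [Complex.norm_real, Real.norm_of_nonneg hs0.le]
  have hδ0 : 0 ≤ δ := by
    have := (hω2 (s : ℂ) (by rw [hsn]; exact hrs) (by rw [hsn]; linarith)).1
    linarith
  have key : ∀ z : ℂ, s ≤ ‖z‖ → ‖z‖ ≤ t → c * δ ≤ 1 - ‖ω z‖ ∧ ‖ω z - ω (s : ℂ)‖ ≤ C * δ := by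
    intro z h1 h2
    rw [hδ]
    exact hcC ω hω (fun z h3 h4 => (hω2 z h3 h4).1) (s : ℂ) z (by rw [hsn]) (by rw [hsn]; linarith) h1 h2
  -- the lower bound of `|g|` on the disk `ball zs d`
  have hlow : ∀ z ∈ ball zs d, (1 + c * δ) * ‖f z‖ ≤ ‖g z‖ := by
    intro z hz
    have h1 := (key z (hWst z hz).1 (hWst z hz).2).1
    have h2 := (hω2 z (hW hz).1 (hW hz).2).2
    rw [h2, norm_mul]
    have h3 := norm_nonneg (ω z)
    have h4 := norm_nonneg (g z)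
    have h5 : (1 + c * δ) * ‖ω z‖ ≤ 1 := by
      have h6 : 0 ≤ c * δ := by positivity
      have h7 : c * δ ≤ 1 := by linarith
      nlinarith
    calc (1 + c * δ) * (‖ω z‖ * ‖g z‖) = (1 + c * δ) * ‖ω z‖ * ‖g z‖ := by ring
      _ ≤ 1 * ‖g z‖ := mul_le_mul_of_nonneg_right h5 h4
      _ = ‖g z‖ := one_mul _
  have hcδ : 0 ≤ c * δ := by positivity
  have hbern : 1 + p * (c * δ) ≤ (1 + c * δ) ^ p :=
    one_add_mul_self_le_rpow_one_add (by linarith) hp1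
  have hlowp : ∀ z ∈ ball zs d, (1 + p * (c * δ)) * ‖f z‖ ^ p ≤ ‖g z‖ ^ p := by
    intro z hz
    calc (1 + p * (c * δ)) * ‖f z‖ ^ p ≤ (1 + c * δ) ^ p * ‖f z‖ ^ p := by
          exact mul_le_mul_of_nonneg_right hbern (by positivity)
      _ = ((1 + c * δ) * ‖f z‖) ^ p := by rw [Real.mul_rpow (by positivity) (norm_nonneg _)]
      _ ≤ ‖g z‖ ^ p := Real.rpow_le_rpow (by positivity) (hlow z hz) hp0.le
  have hMp : 0 < ‖f zs‖ ^ p := Real.rpow_pos_of_pos hM0 p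
  rcases le_or_gt δ₀ δ with hcase | hcase
  · -- large `δ`
    refine split_le hd0 hp1 hmv hf (κ := p * (c * δ)) (x := ‖f zs‖ ^ p) (by positivity) hMp.le hr hr1 hW
      hfg hlowp (fun z hz => ?_) ?_
    · have h1 := Real.rpow_le_rpow (norm_nonneg _) (hM z (by linarith)) hp0.le
      have h2 : 0 ≤ ‖g z‖ ^ p := by positivity
      linarith
    · have h1 : 1 ≤ p * (c * δ₀ * d ^ 2) := by
        rw [div_le_iff₀ (by positivity)] at hpL
        exact hpL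
      have h2 : p * (c * δ₀ * d ^ 2) ≤ p * (c * δ * d ^ 2) := by gcongr
      calc ‖f zs‖ ^ p = 1 * ‖f zs‖ ^ p := (one_mul _).symm
        _ ≤ (p * (c * δ * d ^ 2)) * ‖f zs‖ ^ p := mul_le_mul_of_nonneg_right (h1.trans h2) hMp.le
        _ = _ := by ring
  · -- small `δ`
    have hKδ' : K * δ ≤ 1 / 4 := by
      rw [← hKδ]
      exact mul_le_mul_of_nonneg_left hcase.le hK0.le
    have hδ4 : δ ≤ 1 / 4 := by
      have : δ ≤ K * δ := by
        have : 1 ≤ K := by linarith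
        nlinarith
      linarith
    have hωs : 0 < ‖ω (s : ℂ)‖ := by linarith
    obtain ⟨e, he⟩ : ∃ e : ℂ, e = ω (s : ℂ) / (‖ω (s : ℂ)‖ : ℂ) := ⟨_, rfl⟩
    have he1 : ‖e‖ = 1 := by
      rw [he, norm_div, Complex.norm_real, norm_norm, div_self hωs.ne']
    have hed : ‖ω (s : ℂ) - e‖ = δ := by
      have hne : (‖ω (s : ℂ)‖ : ℂ) ≠ 0 := by exact_mod_cast hωs.ne'
      have h1 : ω (s : ℂ) = (‖ω (s : ℂ)‖ : ℂ) * e := by rw [he]; field_simp
      have h2 : ω (s : ℂ) - e = ((‖ω (s : ℂ)‖ - 1 : ℝ) : ℂ) * e := by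
        nth_rewrite 1 [h1]
        push_cast
        ring
      rw [h2, norm_mul, he1, mul_one, Complex.norm_real, Real.norm_eq_abs, abs_sub_comm,
        abs_of_nonneg (by linarith), hδ]
    have hcirc : ∀ z : ℂ, s ≤ ‖z‖ → ‖z‖ ≤ t → ‖ω z - e‖ ≤ K * δ := by
      intro z h1 h2
      have h3 := (key z h1 h2).2
      have h4 := norm_sub_le_norm_sub_add_norm_sub (ω z) (ω (s : ℂ)) e
      rw [hed] at h4
      rw [hK]
      linarith
    -- the maximum on the smaller disk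
    obtain ⟨z₁, hz₁, hmax₁⟩ := (isCompact_closedBall (0 : ℂ) s).exists_isMaxOn
      ⟨0, mem_closedBall_self hs0.le⟩
      (continuous_norm.comp_continuousOn (hf.continuousOn.mono
        (closedBall_subset_ball (by linarith))))
    rw [mem_closedBall_zero_iff] at hz₁
    have hM₁ : ∀ z : ℂ, ‖z‖ ≤ s → ‖f z‖ ≤ ‖f z₁‖ := fun z hz => hmax₁ (mem_closedBall_zero_iff.2 hz)
    obtain ⟨M₁, hM₁'⟩ : ∃ M₁ : ℝ, M₁ = ‖f z₁‖ := ⟨_, rfl⟩
    rw [← hM₁'] at hM₁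
    have hM₁0 : 0 ≤ M₁ := by rw [hM₁']; exact norm_nonneg _
    have hM₁M : M₁ ≤ ‖f zs‖ := by rw [hM₁']; exact hM z₁ (by linarith)
    have hη : ∀ z : ℂ, ‖z‖ ≤ s → ‖f z - e * g z‖ ≤ 2 * (K * δ) * M₁ := by
      refine max_disk (f := fun z => f z - e * g z) hs0 (by linarith) (hf.sub (hg.const_mul e)) ?_
      intro z hz
      have h1 := hω2 z (by linarith) (by linarith)
      have h2 := hcirc z hz.ge (by linarith)
      have h3 : 1 / 2 ≤ ‖ω z‖ := by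
        have h4 := norm_sub_norm_le e (ω z)
        rw [norm_sub_rev, he1] at h4
        linarith
      have h5 : ‖g z‖ ≤ 2 * M₁ := by
        have h6 := hM₁ z hz.le
        rw [h1.2, norm_mul] at h6
        have h7 := norm_nonneg (g z)
        nlinarith
      have h8 : f z - e * g z = (ω z - e) * g z := by
        rw [h1.2]; ring
      rw [h8, norm_mul]
      calc ‖ω z - e‖ * ‖g z‖ ≤ (K * δ) * (2 * M₁) := by gcongr
        _ = _ := by ring
    -- growth of `f`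
    have hgrow : M₁ ≤ q * ‖f zs‖ := by
      have h1 : ‖f b‖ ≤ ‖f zs‖ / 2 := by
        have h2 := hη b (by linarith)
        rw [hgb, mul_zero, sub_zero] at h2
        have h3 : 2 * (K * δ) * M₁ ≤ 1 / 2 * ‖f zs‖ := by
          refine mul_le_mul (by linarith) hM₁M hM₁0 (by norm_num)
        linarith
      have hMc : (‖f zs‖ : ℂ) ≠ 0 := by exact_mod_cast hM0.ne'
      have h4 := hdc (fun z => f z / (‖f zs‖ : ℂ))
        ((hf.mono (ball_subset_ball (by linarith))).div_const _)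
        (fun z hz => by
          rw [norm_div, Complex.norm_real, norm_norm, div_le_one hM0]
          exact hM z (mem_ball_zero_iff.1 hz).le) b z₁ (by linarith) hz₁
      simp only [norm_div, Complex.norm_real, norm_norm] at h4
      rw [← hM₁'] at h4
      have h5 : ‖f b‖ / ‖f zs‖ ≤ 1 / 2 := by
        rw [div_le_iff₀ hM0]; linarith
      have h6 : c2 * (1 / 2) ≤ c2 * (1 - ‖f b‖ / ‖f zs‖) :=
        mul_le_mul_of_nonneg_left (by linarith) hc2.le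
      have h7 : M₁ / ‖f zs‖ ≤ q := by linarith
      rwa [div_le_iff₀ hM0] at h7
    have hpow : M₁ ^ p ≤ q ^ p * ‖f zs‖ ^ p := by
      rw [← Real.mul_rpow hq0.le (norm_nonneg _)]
      exact Real.rpow_le_rpow hM₁0 hgrow hp0.le
    refine split_le hd0 hp1 hmv hf (κ := p * (c * δ)) (x := p * M₁ ^ p * (2 * (K * δ))) (by positivity)
      (by positivity) hr hr1 hW hfg hlowp (fun z hz => ?_) ?_
    · rcases le_or_gt ‖f z‖ ‖g z‖ with h1 | h1
      · have h2 := Real.rpow_le_rpow (norm_nonneg _) h1 hp0.le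
        have h3 : 0 ≤ p * M₁ ^ p * (2 * (K * δ)) := by positivity
        linarith
      · have hF : 0 < ‖f z‖ := (norm_nonneg _).trans_lt h1
        have h2 := pow_tangent hF (norm_nonneg (g z)) hp1
        have h3 : ‖f z‖ - ‖g z‖ ≤ 2 * (K * δ) * M₁ := by
          have h4 := hη z (by linarith)
          have h5 := norm_sub_norm_le (f z) (e * g z)
          rw [norm_mul, he1, one_mul] at h5
          linarith
        have h6 := hM₁ z (by linarith)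
        have h7 : p * ‖f z‖ ^ p * ((‖f z‖ - ‖g z‖) / ‖f z‖) ≤ p * M₁ ^ p * (2 * (K * δ)) := by
          have hM₁p : 0 < M₁ := hF.trans_le h6
          have e1 : ‖f z‖ ^ p * ((‖f z‖ - ‖g z‖) / ‖f z‖) = ‖f z‖ ^ (p - 1) * (‖f z‖ - ‖g z‖) := by
            rw [Real.rpow_sub_one hF.ne']
            ring
          have e2 : M₁ ^ p * (2 * (K * δ)) = M₁ ^ (p - 1) * (2 * (K * δ) * M₁) := by
            rw [Real.rpow_sub_one hM₁p.ne']
            field_simp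
          have h8 : ‖f z‖ ^ (p - 1) * (‖f z‖ - ‖g z‖) ≤ M₁ ^ (p - 1) * (2 * (K * δ) * M₁) := by
            refine mul_le_mul (Real.rpow_le_rpow hF.le h6 (by linarith)) h3 (by linarith) (by positivity)
          calc p * ‖f z‖ ^ p * ((‖f z‖ - ‖g z‖) / ‖f z‖)
              = p * (‖f z‖ ^ p * ((‖f z‖ - ‖g z‖) / ‖f z‖)) := by ring
            _ ≤ p * (M₁ ^ p * (2 * (K * δ))) := by
                rw [e1, e2]
                exact mul_le_mul_of_nonneg_left h8 hp0.le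
            _ = _ := by ring
        linarith
    · have h1 := hP₁ p hpP
      calc p * M₁ ^ p * (2 * (K * δ)) ≤ p * (q ^ p * ‖f zs‖ ^ p) * (2 * (K * δ)) := by gcongr
        _ = p * δ * ‖f zs‖ ^ p * (2 * K * q ^ p) := by ring
        _ ≤ p * δ * ‖f zs‖ ^ p * (c * d ^ 2) := by gcongr
        _ = _ := by ring

/-- the admissible radii -/
def Adm (p : ℝ) : Set ℝ := {r : ℝ | 0 ≤ r ∧ r < 1 ∧
        ∀ f g : ℂ → ℂ, DifferentiableOn ℂ f (Metric.ball 0 1) →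
          DifferentiableOn ℂ g (Metric.ball 0 1) →
          (∀ z : ℂ, r < ‖z‖ → ‖z‖ < 1 → ‖f z‖ ≤ ‖g z‖) →
          ∫⁻ z in Metric.ball (0:ℂ) 1, ‖f z‖ₑ ^ p ≤ ∫⁻ z in Metric.ball (0:ℂ) 1, ‖g z‖ₑ ^ p}

theorem adm_of (h : S_MAIN) : Filter.Tendsto (fun p : ℝ => sSup (Adm p)) Filter.atTop (nhds 1) := by
  rw [Metric.tendsto_atTop]
  intro ε hε
  obtain ⟨η, hη⟩ : ∃ η : ℝ, η = min (ε / 2) (1 / 2) := ⟨_, rfl⟩
  have h1 : 0 < η := by rw [hη]; positivity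
  have h2 : η ≤ ε / 2 := by rw [hη]; exact min_le_left _ _
  have h3 : η ≤ 1 / 2 := by rw [hη]; exact min_le_right _ _
  obtain ⟨P, hP⟩ := h (1 - η) (by linarith) (by linarith)
  refine ⟨P, fun p hp => ?_⟩
  have hbdd : BddAbove (Adm p) := ⟨1, fun r hr => hr.2.1.le⟩
  have hmem : 1 - η ∈ Adm p := ⟨by linarith, by linarith, fun f g => hP p hp f g⟩
  have hge := le_csSup hbdd hmem
  have hle : sSup (Adm p) ≤ 1 := csSup_le ⟨_, hmem⟩ fun r hr => hr.2.1.le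
  rw [Real.dist_eq, abs_lt]
  constructor <;> linarith

/-- the form of the frozen statement -/
theorem frozen_of (h : S_MAIN) : Filter.Tendsto
      (fun p : ℝ => sSup {r : ℝ | 0 ≤ r ∧ r < 1 ∧
        ∀ f g : ℂ → ℂ, DifferentiableOn ℂ f (Metric.ball 0 1) →
          DifferentiableOn ℂ g (Metric.ball 0 1) →
          (∀ z : ℂ, r < ‖z‖ → ‖z‖ < 1 → ‖f z‖ ≤ ‖g z‖) →
          ∫⁻ z in Metric.ball (0:ℂ) 1, ‖f z‖ₑ ^ p ≤ ∫⁻ z in Metric.ball (0:ℂ) 1, ‖g z‖ₑ ^ p})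
      Filter.atTop (nhds 1) := adm_of h

end Pool.Agent.Run7.h700.KC
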