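import Pool.Agent.Run7.h700.KC.Main
import Pool.Agent.Run7.h884.KC.SP
import Pool.Agent.Run7.h459.KC.CH
import Pool.Agent.Run7.h648.KC.DISC
import Pool.Agent.Run7.h989.KC.QUO
import Pool.Agent.Run7.h824.KC.MV

/-!
# Project KC: a quantitative version
-/

set_option autoImplicit false

namespace Pool.Agent.Run7.h700.KC

open Metric Set MeasureTheory Filter Topology
open scoped ENNReal Real

/-- the annulus, with an explicit number of disks (the proof of `t_ANN` of helper642) -/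
theorem ann_N (hsp : S_SP) (hch : S_CH) {r s t : ℝ} (hr : 0 < r) (hrs : r < s) (hst : s ≤ t)
    (ht : t < 1) (N : ℕ) (hN' : Real.log t - Real.log s + 2 * π ≤
      N * (min (Real.log s - Real.log r) (-Real.log t) / 4)) :
    ∀ ω : ℂ → ℂ, DifferentiableOn ℂ ω {z | r < ‖z‖ ∧ ‖z‖ < 1} →
    (∀ z, r < ‖z‖ → ‖z‖ < 1 → ‖ω z‖ ≤ 1) → ∀ a z : ℂ, s ≤ ‖a‖ → ‖a‖ ≤ t → s ≤ ‖z‖ → ‖z‖ ≤ t →
      (1 / 3) ^ N * (1 - ‖ω a‖) ≤ 1 - ‖ω z‖ ∧ ‖ω z - ω a‖ ≤ (5 / 3) ^ N * (1 - ‖ω a‖) := by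
  have hs : 0 < s := hr.trans hrs
  have ht0 : 0 < t := hs.trans_le hst
  have hlrs : Real.log r < Real.log s := Real.log_lt_log hr hrs
  have hlst : Real.log s ≤ Real.log t := Real.log_le_log hs hst
  have hlt : Real.log t < 0 := Real.log_neg ht0 ht
  set R : ℝ := min (Real.log s - Real.log r) (-Real.log t) with hR
  have hR0 : 0 < R := lt_min (by linarith) (by linarith)
  intro ω hω hω1 a z hsa hat hsz hzt
  have ha0 : a ≠ 0 := by
    intro h; rw [h, norm_zero] at hsa; linarith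
  have hz0 : z ≠ 0 := by
    intro h; rw [h, norm_zero] at hsz; linarith
  set U : Set ℂ := {w | Real.log r < w.re ∧ w.re < 0} with hU
  set K : Set ℂ := {w | Real.log s ≤ w.re ∧ w.re ≤ Real.log t} with hK
  have hmap : ∀ w ∈ U, r < ‖Complex.exp w‖ ∧ ‖Complex.exp w‖ < 1 := by
    intro w hw
    rw [Complex.norm_exp]
    refine ⟨?_, Real.exp_lt_one_iff.2 hw.2⟩
    calc r = Real.exp (Real.log r) := (Real.exp_log hr).symm
      _ < Real.exp w.re := Real.exp_lt_exp.2 hw.1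
  have hKconv : Convex ℝ K :=
    (convex_halfSpace_re_ge (Real.log s)).inter (convex_halfSpace_re_le (Real.log t))
  have hball : ∀ b ∈ K, ball b R ⊆ U := by
    intro b hb w hw
    have h1 : |w.re - b.re| < R := by
      have := Complex.abs_re_le_norm (w - b)
      rw [Complex.sub_re] at this
      rw [mem_ball, dist_eq_norm] at hw
      exact this.trans_lt hw
    have h2 := abs_lt.1 h1
    have h3 : R ≤ Real.log s - Real.log r := min_le_left _ _
    have h4 : R ≤ -Real.log t := min_le_right _ _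
    have hb1 : Real.log s ≤ b.re := hb.1
    have hb2 : b.re ≤ Real.log t := hb.2
    exact ⟨by linarith [h2.1], by linarith [h2.2]⟩
  have hdiff : DifferentiableOn ℂ (fun w => ω (Complex.exp w)) U :=
    hω.comp Complex.differentiable_exp.differentiableOn (fun w hw => hmap w hw)
  have hbd : ∀ w ∈ U, ‖ω (Complex.exp w)‖ ≤ 1 := fun w hw => hω1 _ (hmap w hw).1 (hmap w hw).2
  have hmemK : ∀ b : ℂ, s ≤ ‖b‖ → ‖b‖ ≤ t → Complex.log b ∈ K := by
    intro b hsb hbt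
    have hb0 : 0 < ‖b‖ := hs.trans_le hsb
    refine ⟨?_, ?_⟩
    · rw [Complex.log_re]; exact Real.log_le_log hs hsb
    · rw [Complex.log_re]; exact Real.log_le_log hb0 hbt
  have haK := hmemK a hsa hat
  have hzK := hmemK z hsz hzt
  have hdist : dist (Complex.log z) (Complex.log a) ≤ N * (R / 4) := by
    rw [dist_eq_norm]
    refine (Complex.norm_le_abs_re_add_abs_im _).trans (le_trans ?_ hN')
    rw [Complex.sub_re, Complex.sub_im]
    have h1 : |(Complex.log z).re - (Complex.log a).re| ≤ Real.log t - Real.log s := by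
      have e1 : Real.log s ≤ (Complex.log z).re := hzK.1
      have e2 : (Complex.log z).re ≤ Real.log t := hzK.2
      have e3 : Real.log s ≤ (Complex.log a).re := haK.1
      have e4 : (Complex.log a).re ≤ Real.log t := haK.2
      rw [abs_le]; constructor <;> linarith
    have h2 : |(Complex.log z).im - (Complex.log a).im| ≤ 2 * π := by
      have e1 := Complex.neg_pi_lt_log_im z
      have e2 := Complex.log_im_le_pi z
      have e3 := Complex.neg_pi_lt_log_im a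
      have e4 := Complex.log_im_le_pi a
      rw [abs_le]; constructor <;> linarith
    linarith
  have key := hch hsp (fun w => ω (Complex.exp w)) U K R hR0 hKconv hball hdiff hbd N
    (Complex.log a) haK (Complex.log z) hzK hdist
  simp only [Complex.exp_log ha0, Complex.exp_log hz0] at key
  refine ⟨key.1, key.2.trans ?_⟩
  have h1 : 0 ≤ 1 - ‖ω a‖ := by
    have := hω1 a (hrs.trans_le hsa) (hat.trans_lt ht)
    linarith
  have h2 : ((5 / 3 : ℝ) ^ N - 1) * (1 - ‖ω a‖) ≤ (5 / 3) ^ N * (1 - ‖ω a‖) :=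
    mul_le_mul_of_nonneg_right (by linarith) h1
  exact h2

/-- the disk, with an explicit number of disks (the proof of `t_DISC` of helper648) -/
theorem disc_N (hSP : S_SP) (hCH : S_CH) {s t : ℝ} (hs : 0 < s) (hst : s < t) (N : ℕ)
    (hN : 2 * s / ((t - s) / 4) ≤ N) :
    ∀ φ : ℂ → ℂ, DifferentiableOn ℂ φ (ball 0 t) → (∀ z ∈ ball (0 : ℂ) t, ‖φ z‖ ≤ 1) →
    ∀ a z : ℂ, ‖a‖ ≤ s → ‖z‖ ≤ s → (1 / 3) ^ N * (1 - ‖φ a‖) ≤ 1 - ‖φ z‖ := by
  have hR : 0 < t - s := by linarith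
  intro φ hφ hb a z ha hz
  refine (hCH hSP φ (ball 0 t) (closedBall 0 s) (t - s) hR (convex_closedBall _ _) ?_ hφ hb N a
    (by simpa using ha) z (by simpa using hz) ?_).1
  · intro a ha w hw
    rw [mem_closedBall, dist_zero_right] at ha
    rw [mem_ball] at hw
    rw [mem_ball, dist_zero_right]
    calc ‖w‖ = ‖(w - a) + a‖ := by rw [sub_add_cancel]
      _ ≤ ‖w - a‖ + ‖a‖ := norm_add_le _ _
      _ < t := by rw [dist_eq_norm] at hw; linarith
  · rw [div_le_iff₀ (by positivity)] at hN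
    calc dist z a = ‖z - a‖ := dist_eq_norm _ _
      _ ≤ ‖z‖ + ‖a‖ := norm_sub_le _ _
      _ ≤ 2 * s := by linarith
      _ ≤ _ := hN

/-- The inequality for given constants. -/
theorem core (hquo : S_QUO) (hnz : S_NZ) (hmv : S_MV) {r s m t d c C c2 p : ℝ} (hr : 0 < r)
    (hr1 : r < 1) (hs : s = r + (1 - r) / 4) (hm : m = r + (1 - r) / 2) (ht : t = r + 3 * (1 - r) / 4)
    (hd : d = (1 - r) / 4) (hc : 0 < c) (hC : 0 < C) (hc2 : 0 < c2) (hc21 : c2 ≤ 1)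
    (hcC : ∀ ω : ℂ → ℂ, DifferentiableOn ℂ ω {z | r < ‖z‖ ∧ ‖z‖ < 1} →
      (∀ z, r < ‖z‖ → ‖z‖ < 1 → ‖ω z‖ ≤ 1) → ∀ a z : ℂ, s ≤ ‖a‖ → ‖a‖ ≤ t → s ≤ ‖z‖ → ‖z‖ ≤ t →
        c * (1 - ‖ω a‖) ≤ 1 - ‖ω z‖ ∧ ‖ω z - ω a‖ ≤ C * (1 - ‖ω a‖))
    (hdc : ∀ φ : ℂ → ℂ, DifferentiableOn ℂ φ (ball 0 m) → (∀ z ∈ ball (0 : ℂ) m, ‖φ z‖ ≤ 1) →
      ∀ a z : ℂ, ‖a‖ ≤ s → ‖z‖ ≤ s → c2 * (1 - ‖φ a‖) ≤ 1 - ‖φ z‖)
    (hp1 : 1 ≤ p) (h1P : 2 * (C + 1) * (1 - c2 / 2) ^ p ≤ c * d ^ 2)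
    (h1L : 1 ≤ p * (c * (1 / (4 * (C + 1))) * d ^ 2)) {f g : ℂ → ℂ}
    (hf : DifferentiableOn ℂ f (ball 0 1)) (hg : DifferentiableOn ℂ g (ball 0 1))
    (hfg : ∀ z : ℂ, r < ‖z‖ → ‖z‖ < 1 → ‖f z‖ ≤ ‖g z‖) :
    ∫⁻ z in ball (0:ℂ) 1, ‖f z‖ₑ ^ p ≤ ∫⁻ z in ball (0:ℂ) 1, ‖g z‖ₑ ^ p := by
  have hd0 : 0 < d := by rw [hd]; linarith
  have hrs : r < s := by linarith
  have hsm : s < m := by linarith
  have hmt : m < t := by linarith
  have ht1 : t < 1 := by linarith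
  have hs0 : 0 < s := hr.trans hrs
  have hm0 : 0 < m := hs0.trans hsm
  obtain ⟨q, hq⟩ : ∃ q : ℝ, q = 1 - c2 / 2 := ⟨_, rfl⟩
  have hq0 : 0 < q := by linarith
  have hq1 : q < 1 := by linarith
  obtain ⟨K, hK⟩ : ∃ K : ℝ, K = C + 1 := ⟨_, rfl⟩
  have hK0 : 0 < K := by linarith
  obtain ⟨δ₀, hδ₀⟩ : ∃ δ₀ : ℝ, δ₀ = 1 / (4 * K) := ⟨_, rfl⟩
  have hδ₀0 : 0 < δ₀ := by rw [hδ₀]; positivity
  have hKδ : K * δ₀ = 1 / 4 := by rw [hδ₀]; field_simp
  rw [← hK, ← hδ₀] at h1L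
  rw [← hK, ← hq] at h1P
  have hp0 : 0 < p := by linarith
  -- the maximum on the circle of radius `m`
  obtain ⟨zs, hzs, hmax⟩ := (isCompact_sphere (0 : ℂ) m).exists_isMaxOn
    (NormedSpace.sphere_nonempty.2 hm0.le)
    (continuous_norm.comp_continuousOn (hf.continuousOn.mono
      ((sphere_subset_closedBall).trans (closedBall_subset_ball (hmt.trans ht1)))))
  rw [mem_sphere_zero_iff_norm] at hzs
  have hM : ∀ z : ℂ, ‖z‖ ≤ m → ‖f z‖ ≤ ‖f zs‖ := max_disk hm0 (hmt.trans ht1) hf fun z hz =>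
    hmax (mem_sphere_zero_iff_norm.2 hz)
  have hW : ball zs d ⊆ {z | r < ‖z‖ ∧ ‖z‖ < 1} := by
    intro z hz
    rw [mem_ball, dist_eq_norm] at hz
    have h1 := norm_sub_norm_le z zs
    have h2 := norm_sub_norm_le zs z
    rw [norm_sub_rev] at h2
    refine ⟨?_, ?_⟩ <;> linarith
  have hWst : ∀ z ∈ ball zs d, s ≤ ‖z‖ ∧ ‖z‖ ≤ t := by
    intro z hz
    rw [mem_ball, dist_eq_norm] at hz
    have h1 := norm_sub_norm_le z zs
    have h2 := norm_sub_norm_le zs z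
    rw [norm_sub_rev] at h2
    refine ⟨?_, ?_⟩ <;> linarith
  rcases eq_or_lt_of_le (norm_nonneg (f zs)) with hM0 | hM0
  · -- `f` vanishes on a disk
    refine split_le hd0 hp1 hmv hf (κ := 0) (x := 0) le_rfl le_rfl hr hr1 hW hfg (fun z hz => ?_)
      (fun z hz => ?_) (by simp)
    · rw [add_zero, one_mul]
      exact Real.rpow_le_rpow (norm_nonneg _) (hfg z (hW hz).1 (hW hz).2) hp0.le
    · have h1 : ‖f z‖ = 0 := le_antisymm ((hM z (by linarith)).trans hM0.symm.le) (norm_nonneg _)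
      rw [h1, Real.zero_rpow hp0.ne', add_zero]
      positivity
  have hgz : ∃ z ∈ ball (0 : ℂ) 1, g z ≠ 0 := by
    refine ⟨zs, by rw [mem_ball_zero_iff]; linarith, fun h0 => ?_⟩
    have := hfg zs (by linarith) (by linarith)
    rw [h0, norm_zero] at this
    linarith
  obtain ⟨ω, hω, hω2⟩ := hquo r f g hr hr1 hf hg hfg hgz
  by_cases hnz0 : ∀ z : ℂ, ‖z‖ ≤ r → g z ≠ 0
  · -- no zeros
    have h1 := hnz r f g hr hr1 hf hg hfg hnz0
    refine setLIntegral_mono' isOpen_ball.measurableSet fun z hz => ?_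
    refine ENNReal.rpow_le_rpow ?_ hp0.le
    rw [← ofReal_norm, ← ofReal_norm]
    exact ENNReal.ofReal_le_ofReal (h1 z (mem_ball_zero_iff.1 hz))
  push Not at hnz0
  obtain ⟨b, hb, hgb⟩ := hnz0
  obtain ⟨δ, hδ⟩ : ∃ δ : ℝ, δ = 1 - ‖ω (s : ℂ)‖ := ⟨_, rfl⟩
  have hsn : ‖(s : ℂ)‖ = s := by rw [Complex.norm_real, Real.norm_of_nonneg hs0.le]
  have hδ0 : 0 ≤ δ := by
    have := (hω2 (s : ℂ) (by rw [hsn]; exact hrs) (by rw [hsn]; linarith)).1
    linarith
  have key : ∀ z : ℂ, s ≤ ‖z‖ → ‖z‖ ≤ t → c * δ ≤ 1 - ‖ω z‖ ∧ ‖ω z - ω (s : ℂ)‖ ≤ C * δ := by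
    intro z h1 h2
    rw [hδ]
    exact hcC ω hω (fun z h3 h4 => (hω2 z h3 h4).1) (s : ℂ) z (by rw [hsn]) (by rw [hsn]; linarith) h1 h2
  -- the lower bound of `|g|` on the disk `ball zs d`
  have hlow : ∀ z ∈ ball zs d, (1 + c * δ) * ‖f z‖ ≤ ‖g z‖ := by
    intro z hz
    have h1 := (key z (hWst z hz).1 (hWst z hz).2).1
    have h2 := (hω2 z (hW hz).1 (hW hz).2).2
    rw [h2, norm_mul]
    have h3 := norm_nonneg (ω z)
    have h4 := norm_nonneg (g z)
    have h5 : (1 + c * δ) * ‖ω z‖ ≤ 1 := by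
      have h6 : 0 ≤ c * δ := by positivity
      have h7 : c * δ ≤ 1 := by linarith
      nlinarith
    calc (1 + c * δ) * (‖ω z‖ * ‖g z‖) = (1 + c * δ) * ‖ω z‖ * ‖g z‖ := by ring
      _ ≤ 1 * ‖g z‖ := mul_le_mul_of_nonneg_right h5 h4
      _ = ‖g z‖ := one_mul _
  have hcδ : 0 ≤ c * δ := by positivity
  have hbern : 1 + p * (c * δ) ≤ (1 + c * δ) ^ p :=
    one_add_mul_self_le_rpow_one_add (by linarith) hp1
  have hlowp : ∀ z ∈ ball zs d, (1 + p * (c * δ)) * ‖f z‖ ^ p ≤ ‖g z‖ ^ p := by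
    intro z hz
    calc (1 + p * (c * δ)) * ‖f z‖ ^ p ≤ (1 + c * δ) ^ p * ‖f z‖ ^ p := by
          exact mul_le_mul_of_nonneg_right hbern (by positivity)
      _ = ((1 + c * δ) * ‖f z‖) ^ p := by rw [Real.mul_rpow (by positivity) (norm_nonneg _)]
      _ ≤ ‖g z‖ ^ p := Real.rpow_le_rpow (by positivity) (hlow z hz) hp0.le
  have hMp : 0 < ‖f zs‖ ^ p := Real.rpow_pos_of_pos hM0 p
  rcases le_or_gt δ₀ δ with hcase | hcase
  · -- large `δ`
    refine split_le hd0 hp1 hmv hf (κ := p * (c * δ)) (x := ‖f zs‖ ^ p) (by positivity) hMp.le hr hr1 hW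
      hfg hlowp (fun z hz => ?_) ?_
    · have h1 := Real.rpow_le_rpow (norm_nonneg _) (hM z (by linarith)) hp0.le
      have h2 : 0 ≤ ‖g z‖ ^ p := by positivity
      linarith
    · have h1 : 1 ≤ p * (c * δ₀ * d ^ 2) := by
        exact h1L
      have h2 : p * (c * δ₀ * d ^ 2) ≤ p * (c * δ * d ^ 2) := by gcongr
      calc ‖f zs‖ ^ p = 1 * ‖f zs‖ ^ p := (one_mul _).symm
        _ ≤ (p * (c * δ * d ^ 2)) * ‖f zs‖ ^ p := mul_le_mul_of_nonneg_right (h1.trans h2) hMp.le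
        _ = _ := by ring
  · -- small `δ`
    have hKδ' : K * δ ≤ 1 / 4 := by
      rw [← hKδ]
      exact mul_le_mul_of_nonneg_left hcase.le hK0.le
    have hδ4 : δ ≤ 1 / 4 := by
      have : δ ≤ K * δ := by
        have : 1 ≤ K := by linarith
        nlinarith
      linarith
    have hωs : 0 < ‖ω (s : ℂ)‖ := by linarith
    obtain ⟨e, he⟩ : ∃ e : ℂ, e = ω (s : ℂ) / (‖ω (s : ℂ)‖ : ℂ) := ⟨_, rfl⟩
    have he1 : ‖e‖ = 1 := by
      rw [he, norm_div, Complex.norm_real, norm_norm, div_self hωs.ne']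
    have hed : ‖ω (s : ℂ) - e‖ = δ := by
      have hne : (‖ω (s : ℂ)‖ : ℂ) ≠ 0 := by exact_mod_cast hωs.ne'
      have h1 : ω (s : ℂ) = (‖ω (s : ℂ)‖ : ℂ) * e := by rw [he]; field_simp
      have h2 : ω (s : ℂ) - e = ((‖ω (s : ℂ)‖ - 1 : ℝ) : ℂ) * e := by
        nth_rewrite 1 [h1]
        push_cast
        ring
      rw [h2, norm_mul, he1, mul_one, Complex.norm_real, Real.norm_eq_abs, abs_sub_comm,
        abs_of_nonneg (by linarith), hδ]
    have hcirc : ∀ z : ℂ, s ≤ ‖z‖ → ‖z‖ ≤ t → ‖ω z - e‖ ≤ K * δ := by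
      intro z h1 h2
      have h3 := (key z h1 h2).2
      have h4 := norm_sub_le_norm_sub_add_norm_sub (ω z) (ω (s : ℂ)) e
      rw [hed] at h4
      rw [hK]
      linarith
    -- the maximum on the smaller disk
    obtain ⟨z₁, hz₁, hmax₁⟩ := (isCompact_closedBall (0 : ℂ) s).exists_isMaxOn
      ⟨0, mem_closedBall_self hs0.le⟩
      (continuous_norm.comp_continuousOn (hf.continuousOn.mono
        (closedBall_subset_ball (by linarith))))
    rw [mem_closedBall_zero_iff] at hz₁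
    have hM₁ : ∀ z : ℂ, ‖z‖ ≤ s → ‖f z‖ ≤ ‖f z₁‖ := fun z hz => hmax₁ (mem_closedBall_zero_iff.2 hz)
    obtain ⟨M₁, hM₁'⟩ : ∃ M₁ : ℝ, M₁ = ‖f z₁‖ := ⟨_, rfl⟩
    rw [← hM₁'] at hM₁
    have hM₁0 : 0 ≤ M₁ := by rw [hM₁']; exact norm_nonneg _
    have hM₁M : M₁ ≤ ‖f zs‖ := by rw [hM₁']; exact hM z₁ (by linarith)
    have hη : ∀ z : ℂ, ‖z‖ ≤ s → ‖f z - e * g z‖ ≤ 2 * (K * δ) * M₁ := by
      refine max_disk (f := fun z => f z - e * g z) hs0 (by linarith) (hf.sub (hg.const_mul e)) ?_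
      intro z hz
      have h1 := hω2 z (by linarith) (by linarith)
      have h2 := hcirc z hz.ge (by linarith)
      have h3 : 1 / 2 ≤ ‖ω z‖ := by
        have h4 := norm_sub_norm_le e (ω z)
        rw [norm_sub_rev, he1] at h4
        linarith
      have h5 : ‖g z‖ ≤ 2 * M₁ := by
        have h6 := hM₁ z hz.le
        rw [h1.2, norm_mul] at h6
        have h7 := norm_nonneg (g z)
        nlinarith
      have h8 : f z - e * g z = (ω z - e) * g z := by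
        rw [h1.2]; ring
      rw [h8, norm_mul]
      calc ‖ω z - e‖ * ‖g z‖ ≤ (K * δ) * (2 * M₁) := by gcongr
        _ = _ := by ring
    -- growth of `f`
    have hgrow : M₁ ≤ q * ‖f zs‖ := by
      have h1 : ‖f b‖ ≤ ‖f zs‖ / 2 := by
        have h2 := hη b (by linarith)
        rw [hgb, mul_zero, sub_zero] at h2
        have h3 : 2 * (K * δ) * M₁ ≤ 1 / 2 * ‖f zs‖ := by
          refine mul_le_mul (by linarith) hM₁M hM₁0 (by norm_num)
        linarith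
      have hMc : (‖f zs‖ : ℂ) ≠ 0 := by exact_mod_cast hM0.ne'
      have h4 := hdc (fun z => f z / (‖f zs‖ : ℂ))
        ((hf.mono (ball_subset_ball (by linarith))).div_const _)
        (fun z hz => by
          rw [norm_div, Complex.norm_real, norm_norm, div_le_one hM0]
          exact hM z (mem_ball_zero_iff.1 hz).le) b z₁ (by linarith) hz₁
      simp only [norm_div, Complex.norm_real, norm_norm] at h4
      rw [← hM₁'] at h4
      have h5 : ‖f b‖ / ‖f zs‖ ≤ 1 / 2 := by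
        rw [div_le_iff₀ hM0]; linarith
      have h6 : c2 * (1 / 2) ≤ c2 * (1 - ‖f b‖ / ‖f zs‖) :=
        mul_le_mul_of_nonneg_left (by linarith) hc2.le
      have h7 : M₁ / ‖f zs‖ ≤ q := by linarith
      rwa [div_le_iff₀ hM0] at h7
    have hpow : M₁ ^ p ≤ q ^ p * ‖f zs‖ ^ p := by
      rw [← Real.mul_rpow hq0.le (norm_nonneg _)]
      exact Real.rpow_le_rpow hM₁0 hgrow hp0.le
    refine split_le hd0 hp1 hmv hf (κ := p * (c * δ)) (x := p * M₁ ^ p * (2 * (K * δ))) (by positivity)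
      (by positivity) hr hr1 hW hfg hlowp (fun z hz => ?_) ?_
    · rcases le_or_gt ‖f z‖ ‖g z‖ with h1 | h1
      · have h2 := Real.rpow_le_rpow (norm_nonneg _) h1 hp0.le
        have h3 : 0 ≤ p * M₁ ^ p * (2 * (K * δ)) := by positivity
        linarith
      · have hF : 0 < ‖f z‖ := (norm_nonneg _).trans_lt h1
        have h2 := pow_tangent hF (norm_nonneg (g z)) hp1
        have h3 : ‖f z‖ - ‖g z‖ ≤ 2 * (K * δ) * M₁ := by
          have h4 := hη z (by linarith)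
          have h5 := norm_sub_norm_le (f z) (e * g z)
          rw [norm_mul, he1, one_mul] at h5
          linarith
        have h6 := hM₁ z (by linarith)
        have h7 : p * ‖f z‖ ^ p * ((‖f z‖ - ‖g z‖) / ‖f z‖) ≤ p * M₁ ^ p * (2 * (K * δ)) := by
          have hM₁p : 0 < M₁ := hF.trans_le h6
          have e1 : ‖f z‖ ^ p * ((‖f z‖ - ‖g z‖) / ‖f z‖) = ‖f z‖ ^ (p - 1) * (‖f z‖ - ‖g z‖) := by
            rw [Real.rpow_sub_one hF.ne']
            ring
          have e2 : M₁ ^ p * (2 * (K * δ)) = M₁ ^ (p - 1) * (2 * (K * δ) * M₁) := by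
            rw [Real.rpow_sub_one hM₁p.ne']
            field_simp
          have h8 : ‖f z‖ ^ (p - 1) * (‖f z‖ - ‖g z‖) ≤ M₁ ^ (p - 1) * (2 * (K * δ) * M₁) := by
            refine mul_le_mul (Real.rpow_le_rpow hF.le h6 (by linarith)) h3 (by linarith) (by positivity)
          calc p * ‖f z‖ ^ p * ((‖f z‖ - ‖g z‖) / ‖f z‖)
              = p * (‖f z‖ ^ p * ((‖f z‖ - ‖g z‖) / ‖f z‖)) := by ring
            _ ≤ p * (M₁ ^ p * (2 * (K * δ))) := by
                rw [e1, e2]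
                exact mul_le_mul_of_nonneg_left h8 hp0.le
            _ = _ := by ring
        linarith
    · have h1 := h1P
      calc p * M₁ ^ p * (2 * (K * δ)) ≤ p * (q ^ p * ‖f zs‖ ^ p) * (2 * (K * δ)) := by gcongr
        _ = p * δ * ‖f zs‖ ^ p * (2 * K * q ^ p) := by ring
        _ ≤ p * δ * ‖f zs‖ ^ p * (c * d ^ 2) := by gcongr
        _ = _ := by ring


end Pool.Agent.Run7.h700.KC
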