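import Pool.Agent.Run7.h700.KC.Rate

/-!
# Project KC: the numbers
-/

set_option autoImplicit false

namespace Pool.Agent.Run7.h700.KC

open Metric Set MeasureTheory Filter Topology
open scoped ENNReal Real

theorem rate_h {h p : ℝ} (hh : 0 < h) (hh1 : h < 1) (hp : Real.exp (1000 / h) ≤ p) :
    (1 - h) ∈ Adm p := by
  obtain ⟨N, hN⟩ : ∃ N : ℕ, N = ⌈160 / h⌉₊ := ⟨_, rfl⟩
  have hN1 : 160 / h ≤ N := by rw [hN]; exact Nat.le_ceil _
  have hN2 : (N : ℝ) ≤ 161 / h := by
    have h1 : (N : ℝ) < 160 / h + 1 := by rw [hN]; exact Nat.ceil_lt_add_one (by positivity)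
    have h2 : 1 ≤ 1 / h := by rw [le_div_iff₀ hh]; linarith
    have h3 : 161 / h = 160 / h + 1 / h := by ring
    linarith
  obtain ⟨r, hr⟩ : ∃ r : ℝ, r = 1 - h := ⟨_, rfl⟩
  obtain ⟨s, hs⟩ : ∃ s : ℝ, s = r + (1 - r) / 4 := ⟨_, rfl⟩
  obtain ⟨m, hm⟩ : ∃ m : ℝ, m = r + (1 - r) / 2 := ⟨_, rfl⟩
  obtain ⟨t, ht⟩ : ∃ t : ℝ, t = r + 3 * (1 - r) / 4 := ⟨_, rfl⟩
  obtain ⟨d, hd⟩ : ∃ d : ℝ, d = (1 - r) / 4 := ⟨_, rfl⟩
  have hr0 : 0 < r := by linarith
  have hrs : r < s := by linarith
  have hs0 : 0 < s := by linarith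
  have hs4 : 1 / 4 ≤ s := by linarith
  have hs1 : s < 1 := by linarith
  have ht0 : 0 < t := by linarith
  have ht1 : t < 1 := by linarith
  have hN' : Real.log t - Real.log s + 2 * π ≤
      N * (min (Real.log s - Real.log r) (-Real.log t) / 4) := by
    have h1 : h / 4 ≤ Real.log s - Real.log r := by
      rw [← Real.log_div hs0.ne' hr0.ne']
      refine le_trans ?_ (Real.one_sub_inv_le_log_of_pos (by positivity))
      rw [inv_div]
      have h2 : 1 - r / s = (s - r) / s := by field_simp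
      rw [h2, le_div_iff₀ hs0]
      nlinarith
    have h2 : h / 4 ≤ -Real.log t := by
      have := Real.log_le_sub_one_of_pos ht0
      linarith
    have h3 : -3 ≤ Real.log s := by
      have h4 := Real.one_sub_inv_le_log_of_pos hs0
      have h5 : s⁻¹ ≤ 4 := by
        rw [inv_le_comm₀ hs0 (by norm_num)]
        linarith
      linarith
    have h4 : Real.log t ≤ 0 := (Real.log_neg ht0 ht1).le
    have h5 := Real.pi_lt_d2
    have h6 : h / 4 ≤ min (Real.log s - Real.log r) (-Real.log t) := le_min h1 h2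
    have h7 : (160 / h) * (h / 4 / 4) ≤ N * (min (Real.log s - Real.log r) (-Real.log t) / 4) := by
      gcongr
    have h8 : (160 / h) * (h / 4 / 4) = 10 := by field_simp; norm_num
    linarith
  have hND : 2 * s / ((m - s) / 4) ≤ N := by
    have h1 : (m - s) / 4 = h / 16 := by rw [hm, hs, hr]; ring
    rw [h1]
    refine le_trans ?_ hN1
    rw [div_le_div_iff₀ (by positivity) hh]
    nlinarith
  -- the constants
  obtain ⟨X, hX⟩ : ∃ X : ℝ, X = 3 ^ N := ⟨_, rfl⟩
  have hX1 : 1 ≤ X := by rw [hX]; exact one_le_pow₀ (by norm_num)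
  have hX0 : 0 < X := by linarith
  have hcX : ((1 / 3 : ℝ)) ^ N = 1 / X := by rw [hX, one_div_pow]
  obtain ⟨C, hC⟩ : ∃ C : ℝ, C = (5 / 3) ^ N := ⟨_, rfl⟩
  have hC0 : 0 < C := by rw [hC]; positivity
  have hNpos : 1 ≤ (N : ℝ) := by
    have : 1 ≤ 160 / h := by rw [le_div_iff₀ hh]; linarith
    linarith
  have hXe : X ≤ Real.exp (2 * N) := by
    rw [hX, mul_comm, Real.exp_nat_mul]
    refine pow_le_pow_left₀ (by norm_num) ?_ N
    have := Real.add_one_le_exp (2 : ℝ)
    linarith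
  have hCe : C + 1 ≤ Real.exp (2 * N) := by
    have h1 : C ≤ Real.exp N := by
      rw [hC, ← mul_one (N : ℝ), Real.exp_nat_mul]
      refine pow_le_pow_left₀ (by norm_num) ?_ N
      have := Real.add_one_le_exp (1 : ℝ)
      linarith
    have h2 : 1 ≤ Real.exp N := Real.one_le_exp (by linarith)
    have h3 : 2 ≤ Real.exp N := by
      have := Real.add_one_le_exp (N : ℝ)
      linarith
    have h4 : Real.exp (2 * N) = Real.exp N * Real.exp N := by rw [← Real.exp_add]; ring_nf
    rw [h4]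
    nlinarith
  have hB : 64 * (C + 1) * X * X / h ^ 2 ≤ p := by
    have h1 : (1 / h) ^ 2 ≤ Real.exp (2 / h) := by
      have h2 : 1 / h ≤ Real.exp (1 / h) := by
        have := Real.add_one_le_exp (1 / h)
        linarith
      have h3 : Real.exp (2 / h) = Real.exp (1 / h) ^ 2 := by
        rw [← Real.exp_nat_mul]; congr 1; push_cast; ring
      rw [h3]
      exact pow_le_pow_left₀ (by positivity) h2 2
    have h2 : (64 : ℝ) ≤ Real.exp 8 := by
      have h3 : (3 : ℝ) ≤ Real.exp 2 := by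
        have := Real.add_one_le_exp (2 : ℝ)
        linarith
      have h4 : Real.exp 8 = Real.exp 2 ^ 4 := by rw [← Real.exp_nat_mul]; norm_num
      rw [h4]
      calc (64 : ℝ) ≤ 3 ^ 4 := by norm_num
        _ ≤ _ := pow_le_pow_left₀ (by norm_num) h3 4
    calc 64 * (C + 1) * X * X / h ^ 2 = 64 * (C + 1) * X * X * (1 / h) ^ 2 := by
          field_simp
      _ ≤ Real.exp 8 * Real.exp (2 * N) * Real.exp (2 * N) * Real.exp (2 * N) * Real.exp (2 / h) := by
          gcongr
      _ = Real.exp (8 + 6 * N + 2 / h) := by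
          rw [← Real.exp_add, ← Real.exp_add, ← Real.exp_add, ← Real.exp_add]
          congr 1
          ring
      _ ≤ Real.exp (1000 / h) := by
          refine Real.exp_le_exp.2 ?_
          have h3 : 8 ≤ 8 / h := by rw [le_div_iff₀ hh]; linarith
          have h4 : 6 * (N : ℝ) ≤ 966 / h := by
            have : 966 / h = 6 * (161 / h) := by ring
            rw [this]
            linarith
          have h5 : 8 / h + 966 / h + 2 / h ≤ 1000 / h := by
            rw [← add_div, ← add_div]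
            exact div_le_div_of_nonneg_right (by norm_num) hh.le
          linarith
      _ ≤ p := hp
  have hp1 : 1 ≤ p := by
    refine le_trans ?_ hp
    exact Real.one_le_exp (by positivity)
  have hp0 : 0 < p := by linarith
  have hh2 : 0 < h ^ 2 := by positivity
  rw [div_le_iff₀ hh2] at hB
  have hd2 : d ^ 2 = h ^ 2 / 16 := by rw [hd, hr]; ring
  have h1L : 1 ≤ p * (1 / X * (1 / (4 * (C + 1))) * d ^ 2) := by
    have e1 : p * (1 / X * (1 / (4 * (C + 1))) * d ^ 2) = p * h ^ 2 / (64 * (C + 1) * X) := by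
      rw [hd2]; field_simp; norm_num
    rw [e1, le_div_iff₀ (by positivity), one_mul]
    refine le_trans ?_ hB
    have : 0 ≤ 64 * (C + 1) * X := by positivity
    nlinarith
  have h1P : 2 * (C + 1) * (1 - 1 / X / 2) ^ p ≤ 1 / X * d ^ 2 := by
    have h1 : 1 / X ≤ 1 := by rw [div_le_one hX0]; exact hX1
    have h2 : (1 - 1 / X / 2) ^ p ≤ Real.exp (-(1 / X / 2 * p)) := by
      have h3 : 1 - 1 / X / 2 ≤ Real.exp (-(1 / X / 2)) := by
        have := Real.add_one_le_exp (-(1 / X / 2))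
        linarith
      calc (1 - 1 / X / 2) ^ p ≤ Real.exp (-(1 / X / 2)) ^ p :=
            Real.rpow_le_rpow (by linarith) h3 hp0.le
        _ = _ := by rw [← Real.exp_mul]; congr 1; ring
    have h4 : Real.exp (-(1 / X / 2 * p)) ≤ 2 * X / p := by
      rw [Real.exp_neg, inv_le_comm₀ (Real.exp_pos _) (by positivity), inv_div]
      have h5 := Real.add_one_le_exp (1 / X / 2 * p)
      have e2 : p / (2 * X) = 1 / X / 2 * p := by field_simp
      rw [e2]
      linarith
    calc 2 * (C + 1) * (1 - 1 / X / 2) ^ p ≤ 2 * (C + 1) * (2 * X / p) := by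
          gcongr
          exact h2.trans h4
      _ ≤ 1 / X * d ^ 2 := by
          rw [hd2]
          have e3 : 2 * (C + 1) * (2 * X / p) = 4 * (C + 1) * X / p := by ring
          have e4 : 1 / X * (h ^ 2 / 16) = h ^ 2 / (16 * X) := by field_simp
          rw [e3, e4, div_le_div_iff₀ hp0 (by positivity)]
          linarith
  refine ⟨by linarith, by linarith, fun f g hf hg hfg => ?_⟩
  rw [← hr] at hfg
  refine core Pool.Agent.Run7.h989.KC.t_QUO Pool.Agent.Run7.h648.KC.t_NZ
    Pool.Agent.Run7.h824.KC.t_MV hr0 (by linarith) hs hm ht hd (c := 1 / X) (C := C) (c2 := 1 / X)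
    (by positivity) hC0 (by positivity) (by rw [div_le_one hX0]; exact hX1) ?_ ?_ hp1 h1P h1L hf hg hfg
  · intro ω hω hω1 a z ha1 ha2 hz1 hz2
    have := ann_N Pool.Agent.Run7.h884.KC.t_SP Pool.Agent.Run7.h459.KC.t_CH hr0 hrs (by linarith) ht1 N
      hN' ω hω hω1 a z ha1 ha2 hz1 hz2
    rwa [hcX, ← hC] at this
  · intro φ hφ hφ1 a z ha hz
    have := disc_N Pool.Agent.Run7.h884.KC.t_SP Pool.Agent.Run7.h459.KC.t_CH hs0 (by linarith) N hND
      φ hφ hφ1 a z ha hz
    rwa [hcX] at this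

/-- The lower bound of the optimal constant. -/
theorem rate_lower {p : ℝ} (hp : 1 < p) : 1 - 1000 / Real.log p ≤ sSup (Adm p) := by
  have hlog : 0 < Real.log p := Real.log_pos hp
  have hnn : 0 ≤ sSup (Adm p) := Real.sSup_nonneg fun x hx => hx.1
  rcases le_or_gt 1 (1000 / Real.log p) with h1 | h1
  · linarith
  · have hh : 0 < 1000 / Real.log p := by positivity
    refine le_csSup ⟨1, fun r hr => hr.2.1.le⟩ (rate_h hh h1 ?_)
    have e1 : 1000 / (1000 / Real.log p) = Real.log p := by field_simp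
    rw [e1, Real.exp_log (by linarith)]

/-- The upper bound, from the integral of `|z|^p`. -/
theorem rate_upper (hup : ∀ p : ℝ, 0 < p → ∫⁻ z in Metric.ball (0:ℂ) 1, ‖z‖ₑ ^ p =
    ENNReal.ofReal (2 * Real.pi / (p + 2))) {p : ℝ} (hp : 0 < p) :
    sSup (Adm p) ≤ (2 / (p + 2)) ^ (1 / p) := by
  have hpos : 0 < 2 / (p + 2) := by positivity
  refine Real.sSup_le (fun r hr => ?_) (by positivity)
  rcases eq_or_lt_of_le hr.1 with h0 | h0
  · rw [← h0]; positivity
  have h1 := hr.2.2 (fun _ => 1) (fun z => z / (r : ℂ)) (differentiableOn_const _)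
    (differentiableOn_id.div_const _) (fun z hz _ => by
      rw [norm_one, norm_div, Complex.norm_real, Real.norm_of_nonneg hr.1, le_div_iff₀ h0, one_mul]
      exact hz.le)
  have hr' : (r : ℂ) ≠ 0 := by exact_mod_cast h0.ne'
  have e1 : ∀ z : ℂ, ‖z / (r : ℂ)‖ₑ ^ p = ENNReal.ofReal (r ^ (-p)) * ‖z‖ₑ ^ p := by
    intro z
    rw [← ofReal_norm, ← ofReal_norm, ENNReal.ofReal_rpow_of_nonneg (norm_nonneg _) hp.le,
      ENNReal.ofReal_rpow_of_nonneg (norm_nonneg _) hp.le, ← ENNReal.ofReal_mul (by positivity)]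
    congr 1
    rw [norm_div, Complex.norm_real, Real.norm_of_nonneg hr.1, Real.div_rpow (norm_nonneg _) hr.1,
      Real.rpow_neg hr.1]
    field_simp
  simp only [e1] at h1
  rw [lintegral_const_mul' _ _ ENNReal.ofReal_ne_top, hup p hp, ← ENNReal.ofReal_mul (by positivity)]
    at h1
  have e2 : ∫⁻ _ in ball (0:ℂ) 1, ‖(1 : ℂ)‖ₑ ^ p = ENNReal.ofReal π := by
    rw [enorm_one, ENNReal.one_rpow, setLIntegral_const, one_mul, Complex.volume_ball]
    rw [ENNReal.ofReal_one, one_pow, one_mul, ← NNReal.coe_real_pi, ENNReal.ofReal_coe_nnreal]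
  rw [e2, ENNReal.ofReal_le_ofReal_iff (by positivity), Real.rpow_neg hr.1] at h1
  have hrp : 0 < r ^ p := Real.rpow_pos_of_pos h0 p
  have h2 : r ^ p ≤ 2 / (p + 2) := by
    have hpi := Real.pi_pos
    have h3 := mul_le_mul_of_nonneg_left h1 hrp.le
    have e3 : r ^ p * ((r ^ p)⁻¹ * (2 * π / (p + 2))) = 2 / (p + 2) * π := by
      field_simp
    rw [e3] at h3
    exact le_of_mul_le_mul_right h3 hpi
  calc r = (r ^ p) ^ (1 / p) := by
        rw [← Real.rpow_mul hr.1, mul_one_div_cancel hp.ne', Real.rpow_one]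
    _ ≤ _ := Real.rpow_le_rpow hrp.le h2 (by positivity)

end Pool.Agent.Run7.h700.KC
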