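import Mathlib

/-!
# Project KC: the constants of the maximum principle in the Bergman spaces tend to one (MP_ccab6c_an)

THEOREM (`S_MAIN`): for `0 < r < 1` there is a `P` such that for `p ≥ P` and all `f`, `g` holomorphic in
the unit disk with `|f| ≤ |g|` for `r < |z| < 1` we have `∫ |f|^p ≤ ∫ |g|^p`.

PROOF. If `g` has no zeros for `|z| ≤ r` then `|f| ≤ |g|` everywhere (NZ). Otherwise let `g b = 0`,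
`|b| ≤ r`. Let `ω = f / g` on the annulus, `|ω| ≤ 1` (QUO), and `r < s < t < 1`. By the lemma of Schwarz and
Pick on a chain of disks (SP, CH, ANN) all the numbers `1 - |ω z|`, `s ≤ |z| ≤ t`, are comparable to
`δ = 1 - |ω z₁|`, and `|ω z - ω z₁| ≤ C δ`. Let `M₁` and `M₃` be the maxima of `|f|` on `|z| = s` and on
`|z| = (s + t) / 2`, `z*` a point with `|f z*| = M₃`. Then `|g|^p ≥ |f|^p (1 + c δ)^p` on the disk of radius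
`d = (t - s) / 2` with center `z*`, so (MV) `∫_A |g|^p ≥ ∫_A |f|^p + ((1 + c δ)^p - 1) π d² M₃^p`. If
`δ ≥ δ*` this is larger than `∫_A |f|^p + π M₁^p` for large `p`, enough since `∫_{|z| ≤ r} |f|^p ≤ π M₁^p`.
If `δ < δ*` then with `e = ω z₁ / |ω z₁|` we have `|f - e g| ≤ 2 C' δ M₁` on `|z| = s`, so for `|z| ≤ s`;
at the zero `b` of `g` this gives `|f b| ≤ M₁ / 2`, so (DISC) `M₁ ≤ q M₃` with `q < 1` depending only on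
`r, s, t`; and `∫_{|z| ≤ r} |f|^p ≤ ∫_{|z| ≤ r} |g|^p + π p M₁^(p-1) 2 C' δ M₁`, and
`2 C' π p δ M₁^p ≤ p c δ π d² M₃^p` for large `p`.
-/

set_option autoImplicit false

namespace Pool.Agent.Run7.h700.KC

open Metric Set
open scoped ENNReal Real

/-- SP (Schwarz and Pick). `ψ = (φ - φ a) / (1 - conj (φ a) φ)` maps `ball a R` to the closed unit disk,
`ψ a = 0`, so `‖ψ z‖ ≤ t = ‖z - a‖ / R ≤ 1 / 4`, `‖φ z - φ a‖ ≤ t (1 - ‖φ a‖ ^ 2 + ‖φ a‖ ‖φ z - φ a‖)`. If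
`‖φ a‖ = 1` then `φ` is constant (maximum principle). -/
def S_SP : Prop := ∀ (φ : ℂ → ℂ) (a z : ℂ) (R : ℝ), 0 < R → DifferentiableOn ℂ φ (ball a R) →
  (∀ w ∈ ball a R, ‖φ w‖ ≤ 1) → dist z a ≤ R / 4 → ‖φ z - φ a‖ ≤ 2 / 3 * (1 - ‖φ a‖)

/-- CH: chain of disks; induction on `N` (go from `a` to `a + (N / (N + 1)) (z - a)`, then to `z`). -/
def S_CH : Prop := S_SP → ∀ (φ : ℂ → ℂ) (U K : Set ℂ) (R : ℝ), 0 < R → Convex ℝ K →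
  (∀ a ∈ K, ball a R ⊆ U) → DifferentiableOn ℂ φ U → (∀ w ∈ U, ‖φ w‖ ≤ 1) → ∀ N : ℕ, ∀ a ∈ K,
  ∀ z ∈ K, dist z a ≤ N * (R / 4) → (1 / 3) ^ N * (1 - ‖φ a‖) ≤ 1 - ‖φ z‖ ∧
    ‖φ z - φ a‖ ≤ ((5 / 3) ^ N - 1) * (1 - ‖φ a‖)

/-- ANN: in an annulus, from CH for `φ = ω ∘ exp`, `U = {log r < Re < 0}`, `K = {log s ≤ Re ≤ log t}`,
`R = min (log s - log r) (-log t)`; the logarithms of the two points differ by at most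
`log t - log s + 2 π`. -/
def S_ANN : Prop := (S_SP → S_CH → ∀ r s t : ℝ, 0 < r → r < s → s ≤ t → t < 1 →
  ∃ c C : ℝ, 0 < c ∧ 0 < C ∧ ∀ ω : ℂ → ℂ, DifferentiableOn ℂ ω {z | r < ‖z‖ ∧ ‖z‖ < 1} →
    (∀ z, r < ‖z‖ → ‖z‖ < 1 → ‖ω z‖ ≤ 1) → ∀ a z : ℂ, s ≤ ‖a‖ → ‖a‖ ≤ t → s ≤ ‖z‖ → ‖z‖ ≤ t →
      c * (1 - ‖ω a‖) ≤ 1 - ‖ω z‖ ∧ ‖ω z - ω a‖ ≤ C * (1 - ‖ω a‖))

/-- DISC: in a disk, from CH with `K = closedBall 0 s`, `U = ball 0 t`. -/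
def S_DISC : Prop := (S_SP → S_CH → ∀ s t : ℝ, 0 < s → s < t → ∃ c : ℝ, 0 < c ∧ c ≤ 1 ∧
  ∀ φ : ℂ → ℂ, DifferentiableOn ℂ φ (ball 0 t) → (∀ z ∈ ball (0 : ℂ) t, ‖φ z‖ ≤ 1) →
    ∀ a z : ℂ, ‖a‖ ≤ s → ‖z‖ ≤ s → c * (1 - ‖φ a‖) ≤ 1 - ‖φ z‖)

/-- QUO: the quotient, `ω z = limUnder (𝓝[≠] z) (f / g)`; zeros of `g` are isolated; removable
singularities: `Complex.differentiableOn_update_limUnder_of_bddAbove`. -/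
def S_QUO : Prop := ∀ (r : ℝ) (f g : ℂ → ℂ), 0 < r → r < 1 → DifferentiableOn ℂ f (ball 0 1) →
  DifferentiableOn ℂ g (ball 0 1) → (∀ z : ℂ, r < ‖z‖ → ‖z‖ < 1 → ‖f z‖ ≤ ‖g z‖) →
  (∃ z ∈ ball (0 : ℂ) 1, g z ≠ 0) →
  ∃ ω : ℂ → ℂ, DifferentiableOn ℂ ω {z | r < ‖z‖ ∧ ‖z‖ < 1} ∧
    ∀ z, r < ‖z‖ → ‖z‖ < 1 → ‖ω z‖ ≤ 1 ∧ f z = ω z * g z

/-- NZ: no zeros of `g` for `|z| ≤ r`: by compactness no zeros for `|z| ≤ ρ`, some `ρ > r`; maximum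
principle for `f / g` on `ball 0 ρ`. -/
def S_NZ : Prop := ∀ (r : ℝ) (f g : ℂ → ℂ), 0 < r → r < 1 → DifferentiableOn ℂ f (ball 0 1) →
  DifferentiableOn ℂ g (ball 0 1) → (∀ z : ℂ, r < ‖z‖ → ‖z‖ < 1 → ‖f z‖ ≤ ‖g z‖) →
  (∀ z : ℂ, ‖z‖ ≤ r → g z ≠ 0) → ∀ z : ℂ, ‖z‖ < 1 → ‖f z‖ ≤ ‖g z‖

/-- MV: sub-mean value property over the area: mean value property of `f` (circles, polar coordinates)
and Jensen's (Hoelder's) inequality. -/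
def S_MV : Prop := ∀ (f : ℂ → ℂ) (a : ℂ) (d p : ℝ), 0 < d → 1 ≤ p → DifferentiableOn ℂ f (ball a d) →
  ENNReal.ofReal (π * d ^ 2) * ‖f a‖ₑ ^ p ≤ ∫⁻ z in ball a d, ‖f z‖ₑ ^ p

/-- the theorem -/
def S_MAIN : Prop := ∀ r : ℝ, 0 < r → r < 1 → ∃ P : ℝ, ∀ p : ℝ, P ≤ p → ∀ f g : ℂ → ℂ,
  DifferentiableOn ℂ f (ball 0 1) → DifferentiableOn ℂ g (ball 0 1) →
  (∀ z : ℂ, r < ‖z‖ → ‖z‖ < 1 → ‖f z‖ ≤ ‖g z‖) →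
  ∫⁻ z in ball (0:ℂ) 1, ‖f z‖ₑ ^ p ≤ ∫⁻ z in ball (0:ℂ) 1, ‖g z‖ₑ ^ p

end Pool.Agent.Run7.h700.KC
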